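import Pool.Agent.Q98.UM.Lem2

/-! Project UM5 (helper97), job LBD (helper98). -/

set_option autoImplicit false

namespace Pool.Agent.Q98.UM

open Filter Topology MeasureTheory Complex
open Pool.Agent.Q97.UM

theorem norm_ap_one (lam : ℝ) (p : ℕ) : ‖ap (fun _ : Fin 1 => lam) (fun _ => 0) p‖ = |lam| := by
  unfold ap
  simp

theorem t_LBD : J_LBD := by
  intro hSI hS hTD hE hMZ hD
  obtain ⟨d, θ₁, hd, -, hθ₁, -, hSI⟩ := hSI (1 / 10) (by norm_num)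
  obtain ⟨θ₂, hθ₂, -, hS⟩ := hS 1 one_pos
  obtain ⟨θ₃, δ₀, hθ₃, hδ₀, hTD⟩ := hTD 1
  refine ⟨d, hd, fun A hA => ?_⟩
  obtain ⟨κ, hκ, hE⟩ := hE A hA
  have hκ1 : 0 < 7 + 20 * κ := by linarith
  obtain ⟨δ, hδ, hδ1, hδ2, hδ3, hδ4, hδ5⟩ : ∃ δ : ℝ, 0 < δ ∧ (7 + 20 * κ) * δ ≤ 1 / 40 ∧ δ ≤ δ₀ ∧
      (7 + 20 * κ) * δ ≤ θ₁ ∧ (7 + 20 * κ) * δ ≤ θ₂ ∧ (7 + 20 * κ) * δ ≤ θ₃ := by
    set m := min (1 / 40) (min θ₁ (min θ₂ θ₃)) with hm
    have hm0 : 0 < m := by positivity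
    have h1 : m ≤ 1 / 40 := min_le_left _ _
    have h2 : m ≤ θ₁ := (min_le_right _ _).trans (min_le_left _ _)
    have h3 : m ≤ θ₂ := (min_le_right _ _).trans ((min_le_right _ _).trans (min_le_left _ _))
    have h4 : m ≤ θ₃ := (min_le_right _ _).trans ((min_le_right _ _).trans (min_le_right _ _))
    have h5 : (7 + 20 * κ) * min (m / (7 + 20 * κ)) δ₀ ≤ m := by
      calc (7 + 20 * κ) * min (m / (7 + 20 * κ)) δ₀ ≤ (7 + 20 * κ) * (m / (7 + 20 * κ)) :=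
            mul_le_mul_of_nonneg_left (min_le_left _ _) hκ1.le
        _ = m := by field_simp
    exact ⟨min (m / (7 + 20 * κ)) δ₀, by positivity, h5.trans h1, min_le_right _ _, h5.trans h2,
      h5.trans h3, h5.trans h4⟩
  have hδ40 : δ ≤ 1 / 40 := by nlinarith
  obtain ⟨C₁, hC₁, hTD⟩ := hTD δ d hδ hδ2 hd
  obtain ⟨C₂, c₂, hC₂, hc₂, hE⟩ := hE δ hδ
  obtain ⟨C₄, hC₄, hPL⟩ := prime_lower hMZ hδ (by linarith)
  have hS3 := S3_nonneg
  set K₁ : ℝ := 2 * A * C₁ + 8 * A * S3 + 8 * C₂ with hK₁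
  have hK₁0 : 0 ≤ K₁ := by positivity
  set K : ℝ := 20 * K₁ with hK
  refine ⟨δ, δ, min (c₂ * Real.exp (-(A ^ 2 * C₄))) (Real.exp (-K) / 20), hδ, hδ40, hδ, by positivity, ?_⟩
  filter_upwards [hSI, hS, hTD, hE, hPL, eventually_ge_atTop (Real.exp 1), eventually_ge_atTop 1]
    with T hSI hS hTD hE hPL hTe hT1 lam hlam
  have hT0 : 0 < T := by linarith
  have hL1 : 1 ≤ Real.log T := (Real.le_log_iff_exp_le hT0).mpr hTe
  have hL0 : 0 < Real.log T := by linarith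
  set k : Fin 1 → ℝ := fun _ => lam with hk'
  set α : Fin 1 → ℝ := fun _ => 0 with hα'
  have hk : ∑ j, |k j| ≤ A := by simpa [hk'] using hlam
  obtain ⟨M, e, J, M₀, q, w, hd'⟩ := hE (ap k α) (ap k fun j => 2 * α j) (norm_ap_le k α hk)
    (norm_ap_le k _ hk)
  have hML : (M : ℝ) ≤ T ^ (20 * κ * δ) := hd'.len
  refine ⟨M, e, hML.trans (Real.rpow_le_rpow_of_exponent_le hT1 (by nlinarith)), hd'.supp, ?_, ?_⟩
  · refine le_trans ?_ hd'.low
    have e1 : ∑ p ∈ (Finset.Icc 1 ⌊T ^ δ⌋₊).filter Nat.Prime, ‖ap k α p‖ ^ 2 / (p : ℝ) =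
        lam ^ 2 * ∑ p ∈ (Finset.Icc 1 ⌊T ^ δ⌋₊).filter Nat.Prime, (1 : ℝ) / p := by
      rw [Finset.mul_sum]
      refine Finset.sum_congr rfl fun p _ => ?_
      rw [hk', hα', norm_ap_one, sq_abs]
      ring
    rw [e1]
    have e2 : Real.log T ^ (lam ^ 2) = Real.exp (lam ^ 2 * Real.log (Real.log T)) := by
      rw [Real.rpow_def_of_pos hL0, mul_comm]
    have hlam2 : lam ^ 2 ≤ A ^ 2 := by
      rw [← sq_abs lam]
      exact pow_le_pow_left₀ (abs_nonneg _) hlam 2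
    have e3 : lam ^ 2 * Real.log (Real.log T) - A ^ 2 * C₄ ≤
        lam ^ 2 * ∑ p ∈ (Finset.Icc 1 ⌊T ^ δ⌋₊).filter Nat.Prime, (1 : ℝ) / p := by
      have u1 := mul_le_mul_of_nonneg_left hPL (sq_nonneg lam)
      have u2 := mul_le_mul_of_nonneg_right hlam2 hC₄
      linarith
    calc min (c₂ * Real.exp (-(A ^ 2 * C₄))) (Real.exp (-K) / 20) * Real.log T ^ (lam ^ 2)
        ≤ c₂ * Real.exp (-(A ^ 2 * C₄)) * Real.log T ^ (lam ^ 2) :=
          mul_le_mul_of_nonneg_right (min_le_left _ _) (by positivity)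
      _ = c₂ * Real.exp (lam ^ 2 * Real.log (Real.log T) - A ^ 2 * C₄) := by
          rw [e2, Real.exp_sub, Real.exp_neg]
          ring
      _ ≤ _ := mul_le_mul_of_nonneg_left (Real.exp_le_exp.mpr e3) hc₂.le
  intro N hN b hb
  set f : ℕ → ℂ := cv e b with hf
  have hfs : ∀ m, f m ≠ 0 → 1 ≤ m ∧ m ≤ M * N := cv_supp hd'.supp hb
  have hFeq : ∀ t, dp M e t * dp N b t = dp (M * N) f t := fun t =>
    hD.1 M N e b t (supp_zero hd'.supp) (supp_zero hb)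
  have hsum0 : 0 ≤ ∑ s ∈ ZI d T, ‖deriv riemannZeta s‖ ^ (2 * lam) * ‖dp N b s.im‖ ^ 2 :=
    Finset.sum_nonneg fun s _ => by positivity
  by_cases h0 : M * N = 0
  · have h1 : N2 (M * N) f = 0 := by
      rw [h0]
      unfold N2
      simp
    rw [h1, mul_zero]
    exact hsum0
  have hMN1 : 1 ≤ M * N := Nat.one_le_iff_ne_zero.mpr h0
  have hMN' : ((M * N : ℕ) : ℝ) ≤ T ^ ((1 + 20 * κ) * δ) := by
    have e1 : (1 + 20 * κ) * δ = 20 * κ * δ + δ := by ring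
    rw [e1, Real.rpow_add hT0]
    push_cast
    exact mul_le_mul hML hN (Nat.cast_nonneg _) (by positivity)
  have hMN : ((M * N : ℕ) : ℝ) ≤ T ^ ((7 + 20 * κ) * δ) :=
    hMN'.trans (Real.rpow_le_rpow_of_exponent_le hT1 (by nlinarith))
  set X := ⌊T ^ δ⌋₊ with hX
  set F : ℝ → ℂ := dp (M * N) f with hF
  set n2 := N2 (M * N) f with hn2
  have hn20 : 0 ≤ n2 := N2_nonneg _ _
  set Λ : ℝ := Real.log T * (T * n2) with hΛ
  have hΛ0 : 0 ≤ Λ := by positivity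
  -- lower and upper bounds over the isolated zeros
  have hlow : 1 / 20 * Λ ≤ ∑ s ∈ ZI d T, ‖F s.im‖ ^ 2 :=
    samp_lower hT0.le hL0.le
      (hSI (M * N) (hMN.trans (Real.rpow_le_rpow_of_exponent_le hT1 hδ3)) f)
  have hup : ∑ s ∈ ZI d T, ‖F s.im‖ ^ 2 ≤ 2 * Λ :=
    samp_upper hT0.le hL0.le
      ((hS (M * N) (hMN.trans (Real.rpow_le_rpow_of_exponent_le hT1 hδ4)) f).2.2) d
  have hDs := (hTD (M * N) (hMN.trans (Real.rpow_le_rpow_of_exponent_le hT1 hδ5)) f).1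
  simp only [pow_one] at hDs
  rw [mul_assoc C₁] at hDs
  -- the block errors
  have hq6 : ∀ j t, ‖dp M₀ (q j) t‖ ^ 6 * ‖F t‖ ^ 2 =
      ‖dp (M₀ ^ 3 * (M * N)) (cv (q j) (cv (q j) (cv (q j) f))) t‖ ^ 2 := fun j t =>
    dp_cube hD (hd'.qs j) hfs t
  have hlen3 : ((M₀ ^ 3 * (M * N) : ℕ) : ℝ) ≤ T ^ θ₂ := by
    have e1 : ((M₀ ^ 3 * (M * N) : ℕ) : ℝ) ≤ (T ^ (2 * δ)) ^ 3 * T ^ ((1 + 20 * κ) * δ) := by
      push_cast at hMN' ⊢
      exact mul_le_mul (pow_le_pow_left₀ (Nat.cast_nonneg _) hd'.M0 3) hMN' (by positivity) (by positivity)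
    refine e1.trans ?_
    rw [← Real.rpow_natCast, ← Real.rpow_mul hT0.le, ← Real.rpow_add hT0]
    refine Real.rpow_le_rpow_of_exponent_le hT1 ?_
    push_cast
    nlinarith
  have hblk : ∀ j, ∑ s ∈ ZI d T, ‖dp M₀ (q j) s.im‖ ^ 6 * ‖F s.im‖ ^ 2 ≤
        2 * (Real.log T * (T * N2 (M₀ ^ 3 * (M * N)) (cv (q j) (cv (q j) (cv (q j) f))))) := by
    intro j
    rw [Finset.sum_congr rfl fun s _ => hq6 j s.im]
    exact samp_upper hT0.le hL0.le ((hS _ hlen3 _).2.2) d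
  have hmean := hd'.mean (M * N) f hMN1 hMN' (supp_zero hfs)
  -- the error function
  set Ds : ℂ → ℝ := fun s =>
    |Real.log ‖deriv riemannZeta s‖ - Real.log (Real.log T) - EP X s.im| with hDsd
  set g : ℂ → ℝ := fun s => 2 * A * Ds s + (4 * A * S3 + 2 * C₂) +
    ∑ j ∈ Finset.range J, 2 * w j * ‖dp M₀ (q j) s.im‖ ^ 6 with hg
  have hgF : ∀ s, g s * ‖F s.im‖ ^ 2 = 2 * A * (Ds s * ‖F s.im‖ ^ 2) +
      (4 * A * S3 + 2 * C₂) * ‖F s.im‖ ^ 2 +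
      ∑ j ∈ Finset.range J, 2 * w j * (‖dp M₀ (q j) s.im‖ ^ 6 * ‖F s.im‖ ^ 2) := by
    intro s
    simp only [hg]
    rw [add_mul, add_mul, Finset.sum_mul]
    congr 1
    · ring
    · exact Finset.sum_congr rfl fun j _ => by ring
  have hint : ∑ s ∈ ZI d T, g s * ‖F s.im‖ ^ 2 ≤ K₁ * Λ := by
    rw [Finset.sum_congr rfl fun s _ => hgF s, Finset.sum_add_distrib, Finset.sum_add_distrib,
      ← Finset.mul_sum, ← Finset.mul_sum, Finset.sum_comm]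
    have b1 : 2 * A * ∑ s ∈ ZI d T, Ds s * ‖F s.im‖ ^ 2 ≤ 2 * A * (C₁ * Λ) := by
      refine mul_le_mul_of_nonneg_left ?_ (by positivity)
      rw [hΛ]
      exact hDs
    have b2 : (4 * A * S3 + 2 * C₂) * ∑ s ∈ ZI d T, ‖F s.im‖ ^ 2 ≤ (4 * A * S3 + 2 * C₂) * (2 * Λ) :=
      mul_le_mul_of_nonneg_left hup (by positivity)
    have b3 : ∑ j ∈ Finset.range J, ∑ s ∈ ZI d T, 2 * w j *
        (‖dp M₀ (q j) s.im‖ ^ 6 * ‖F s.im‖ ^ 2) ≤ 4 * (Real.log T * T) * (C₂ * n2) := by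
      calc ∑ j ∈ Finset.range J, ∑ s ∈ ZI d T, 2 * w j * (‖dp M₀ (q j) s.im‖ ^ 6 * ‖F s.im‖ ^ 2)
          ≤ ∑ j ∈ Finset.range J, 4 * (Real.log T * T) * (w j *
              N2 (M₀ ^ 3 * (M * N)) (cv (q j) (cv (q j) (cv (q j) f)))) := by
            refine Finset.sum_le_sum fun j _ => ?_
            rw [← Finset.mul_sum]
            have := mul_le_mul_of_nonneg_left (hblk j) (by have := hd'.wn j; linarith : 0 ≤ 2 * w j)
            refine this.trans (le_of_eq ?_)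
            ring
        _ = 4 * (Real.log T * T) * ∑ j ∈ Finset.range J, w j *
              N2 (M₀ ^ 3 * (M * N)) (cv (q j) (cv (q j) (cv (q j) f))) := by rw [Finset.mul_sum]
        _ ≤ 4 * (Real.log T * T) * (C₂ * n2) := mul_le_mul_of_nonneg_left hmean (by positivity)
    rw [hK₁]
    have b4 : 4 * (Real.log T * T) * (C₂ * n2) = 4 * C₂ * Λ := by rw [hΛ]; ring
    rw [b4] at b3
    linarith [(by ring : 2 * A * (C₁ * Λ) + (4 * A * S3 + 2 * C₂) * (2 * Λ) +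
      4 * C₂ * Λ = (2 * A * C₁ + 8 * A * S3 + 8 * C₂) * Λ)]
  -- the pointwise inequality
  have hpt : ∀ s ∈ ZI d T, Real.log T ^ (2 * lam) * (Real.exp (-K) *
      ((1 + K) * ‖F s.im‖ ^ 2 - g s * ‖F s.im‖ ^ 2)) ≤
      ‖deriv riemannZeta s‖ ^ (2 * lam) * ‖dp N b s.im‖ ^ 2 := by
    intro s hs
    have hnn : 0 ≤ ‖deriv riemannZeta s‖ ^ (2 * lam) * ‖dp N b s.im‖ ^ 2 := by positivity
    by_cases hF0 : F s.im = 0
    · rw [hF0]
      simpa using hnn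
    have hEB := hFeq s.im
    have hE0 : dp M e s.im ≠ 0 := fun h => hF0 (by rw [← hEB, h, zero_mul])
    obtain ⟨-, hre, hmz⟩ := mem_ZI hs
    have hder : 0 < ‖deriv riemannZeta s‖ := norm_pos_iff.mpr (deriv_ne hre hmz)
    set h : ℝ := Real.log ‖deriv riemannZeta s‖ * (2 * lam) - Real.log (Real.log T) * (2 * lam) -
      2 * Real.log ‖dp M e s.im‖ with hh
    have hEsq : ‖dp M e s.im‖ ^ 2 = Real.exp (2 * Real.log ‖dp M e s.im‖) := by
      rw [two_mul, Real.exp_add, Real.exp_log (norm_pos_iff.mpr hE0), sq]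
    have hrhs : ‖deriv riemannZeta s‖ ^ (2 * lam) * ‖dp N b s.im‖ ^ 2 =
        Real.log T ^ (2 * lam) * (Real.exp h * ‖F s.im‖ ^ 2) := by
      rw [← hEB, norm_mul, mul_pow, hh, Real.exp_sub, ← hEsq, Real.exp_sub,
        Real.rpow_def_of_pos hder, Real.rpow_def_of_pos hL0]
      have h8 : ‖dp M e s.im‖ ^ 2 ≠ 0 := pow_ne_zero 2 (norm_ne_zero_iff.mpr hE0)
      have h9 : Real.exp (Real.log (Real.log T) * (2 * lam)) ≠ 0 := (Real.exp_pos _).ne'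
      field_simp
    have hgh : -g s ≤ h := by
      have u1 := hd'.up s.im hE0
      have u2 := abs_le.mp (EP_PA k α hk X s.im)
      have u3 : k 0 = lam := rfl
      have u5 : α 0 = 0 := rfl
      rw [Fin.sum_univ_one, u3, u5, add_zero] at u2
      have u4 : ∑ j ∈ Finset.range J, 2 * w j * ‖dp M₀ (q j) s.im‖ ^ 6 =
          2 * ∑ j ∈ Finset.range J, w j * ‖dp M₀ (q j) s.im‖ ^ 6 := by
        rw [Finset.mul_sum]
        exact Finset.sum_congr rfl fun j _ => by ring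
      have v1 : -(|lam| * Ds s) ≤
          lam * (Real.log ‖deriv riemannZeta s‖ - Real.log (Real.log T) - EP X s.im) := by
        rw [hDsd, ← abs_mul]
        exact neg_abs_le _
      have v2 : |lam| * Ds s ≤ A * Ds s := mul_le_mul_of_nonneg_right hlam (abs_nonneg _)
      simp only [hg, hh]
      rw [u4]
      linarith [u2.1]
    have h4 := exp_tangent (K := K) hgh
    rw [hrhs]
    refine mul_le_mul_of_nonneg_left ?_ (by positivity)
    calc Real.exp (-K) * ((1 + K) * ‖F s.im‖ ^ 2 - g s * ‖F s.im‖ ^ 2)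
        = Real.exp (-K) * (1 + K - g s) * ‖F s.im‖ ^ 2 := by ring
      _ ≤ Real.exp h * ‖F s.im‖ ^ 2 := mul_le_mul_of_nonneg_right h4 (by positivity)
  refine le_trans ?_ (Finset.sum_le_sum hpt)
  rw [← Finset.mul_sum, ← Finset.mul_sum, Finset.sum_sub_distrib, ← Finset.mul_sum]
  set I₀ := ∑ s ∈ ZI d T, ‖F s.im‖ ^ 2 with hI₀
  have h5 : K₁ * Λ ≤ K * I₀ := by
    rw [hK]
    nlinarith
  have h6 : I₀ ≤ (1 + K) * I₀ - ∑ s ∈ ZI d T, g s * ‖F s.im‖ ^ 2 := by linarith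
  have e5 : Real.log T ^ (1 + 2 * lam) = Real.log T * Real.log T ^ (2 * lam) := by
    rw [Real.rpow_add hL0, Real.rpow_one]
  calc min (c₂ * Real.exp (-(A ^ 2 * C₄))) (Real.exp (-K) / 20) * T * Real.log T ^ (1 + 2 * lam) * n2
      ≤ Real.exp (-K) / 20 * T * Real.log T ^ (1 + 2 * lam) * n2 := by
        have h7 := min_le_right (c₂ * Real.exp (-(A ^ 2 * C₄))) (Real.exp (-K) / 20)
        have h8 : 0 ≤ T * Real.log T ^ (1 + 2 * lam) * n2 := by positivity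
        have := mul_le_mul_of_nonneg_right h7 h8
        linarith
    _ = Real.log T ^ (2 * lam) * (Real.exp (-K) * (1 / 20 * Λ)) := by
        rw [e5, hΛ]
        ring
    _ ≤ Real.log T ^ (2 * lam) * (Real.exp (-K) * I₀) :=
        mul_le_mul_of_nonneg_left (mul_le_mul_of_nonneg_left hlow (Real.exp_pos _).le) (by positivity)
    _ ≤ _ := mul_le_mul_of_nonneg_left (mul_le_mul_of_nonneg_left h6 (Real.exp_pos _).le) (by positivity)

end Pool.Agent.Q98.UM
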