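import Pool.Agent.Q97.UM.Stm12

/-! Project UM5 (helper97): auxiliary lemmas for the jobs LBM, LBD, EXT (helper98). -/

set_option autoImplicit false

namespace Pool.Agent.Q98.UM

open Filter Topology MeasureTheory Complex
open Pool.Agent.Q97.UM

/-! ### a.e. nonvanishing -/

theorem countable_zt : {t : ℝ | zt t = 0}.Countable := by
  have h1 : {t : ℝ | zt t = 0} ⊆ ⋃ n : ℕ, {t : ℝ | t ∈ Set.Icc (-(n : ℝ)) n ∧ zt t = 0} := by
    intro t ht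
    obtain ⟨n, hn⟩ := exists_nat_ge |t|
    exact Set.mem_iUnion.mpr ⟨n, abs_le.mp hn, ht⟩
  refine Set.Countable.mono h1 (Set.countable_iUnion fun n => Set.Finite.countable ?_)
  have hc : Continuous (fun t : ℝ => (1 / 2 + t * I : ℂ)) := by fun_prop
  have h2 := (isCompact_Icc (a := -(n : ℝ)) (b := n)).image hc
  have h3 := h2.inter_riemannZetaZeros_finite
  refine Set.Finite.of_finite_image (f := fun t : ℝ => (1 / 2 + t * I : ℂ)) (h3.subset ?_) ?_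
  · rintro z ⟨t, ⟨ht1, ht2⟩, rfl⟩
    exact ⟨⟨t, ht1, rfl⟩, ht2⟩
  · intro s _ t _ hst
    have := congrArg Complex.im hst
    simpa using this

theorem ae_zt (α : ℝ) : ∀ᵐ t : ℝ, zt (t + α) ≠ 0 := by
  have h1 : {t : ℝ | zt (t + α) = 0}.Countable := by
    have h2 : {t : ℝ | zt (t + α) = 0} = (fun t => t + α) ⁻¹' {t : ℝ | zt t = 0} := rfl
    rw [h2]
    exact countable_zt.preimage (add_left_injective α)
  have h3 := h1.measure_zero volume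
  rw [ae_iff]
  simpa using h3

/-! ### logarithm -/

theorem log_one_sub {z : ℂ} (hz : ‖z‖ ≤ 3 / 4) :
    |-Real.log ‖1 - z‖ - (z + z ^ 2 / 2).re| ≤ 2 * ‖z‖ ^ 3 := by
  have h1 : ‖-z‖ < 1 := by rw [norm_neg]; linarith
  have h2 := Complex.norm_log_sub_logTaylor_le 2 h1
  have h3 : logTaylor 3 (-z) = -z - z ^ 2 / 2 := by
    rw [logTaylor_succ, logTaylor_succ, logTaylor_succ, logTaylor_zero]
    simp only [Pi.add_apply]
    push_cast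
    ring
  rw [show (2 + 1 : ℕ) = 3 from rfl, h3, norm_neg] at h2
  have h4 : -Real.log ‖1 - z‖ - (z + z ^ 2 / 2).re = -(log (1 + -z) - (-z - z ^ 2 / 2)).re := by
    have h5 : (log (1 + -z)).re = Real.log ‖1 - z‖ := by
      rw [Complex.log_re, ← sub_eq_add_neg]
    rw [sub_re (log (1 + -z)), h5, sub_re, neg_re, add_re]
    ring
  rw [h4, abs_neg]
  refine (abs_re_le_norm _).trans (h2.trans ?_)
  have h6 : (1 - ‖z‖)⁻¹ ≤ 4 := by
    rw [inv_le_comm₀ (by linarith) (by norm_num)]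
    linarith
  have h7 : 0 ≤ ‖z‖ ^ 3 := by positivity
  have h8 : ‖z‖ ^ 3 * (1 - ‖z‖)⁻¹ ≤ ‖z‖ ^ 3 * 4 := mul_le_mul_of_nonneg_left h6 h7
  have h9 : (((2 : ℕ) : ℝ) + 1) = 3 := by norm_num
  rw [h9]
  have h10 : ‖z‖ ^ 3 * (1 - ‖z‖)⁻¹ / 3 ≤ ‖z‖ ^ 3 * 4 / 3 := by linarith
  linarith

theorem norm_pow_line {p : ℕ} (hp : 2 ≤ p) (s : ℝ) :
    ‖(p : ℂ) ^ (-(1 / 2 + s * I))‖ = (p : ℝ) ^ (-(1 / 2) : ℝ) := by
  rw [Complex.norm_natCast_cpow_of_pos (by omega)]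
  congr 1
  simp

theorem norm_line_le {p : ℕ} (hp : 2 ≤ p) (s : ℝ) : ‖(p : ℂ) ^ (-(1 / 2 + s * I))‖ ≤ 3 / 4 := by
  rw [norm_pow_line hp s]
  have h1 : (p : ℝ) ^ (-(1 / 2) : ℝ) ≤ (2 : ℝ) ^ (-(1 / 2) : ℝ) :=
    Real.rpow_le_rpow_of_nonpos (by norm_num) (by exact_mod_cast hp) (by norm_num)
  refine h1.trans ?_
  rw [Real.rpow_neg (by norm_num), ← Real.sqrt_eq_rpow, inv_le_comm₀ (by positivity) (by norm_num)]
  rw [show ((3 : ℝ) / 4)⁻¹ = 4 / 3 by norm_num, Real.le_sqrt (by norm_num) (by norm_num)]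
  norm_num

/-- the constant for the cubes of the primes -/
noncomputable def S3 : ℝ := ∑' n : ℕ, (n : ℝ) ^ (-(3 / 2) : ℝ)

theorem summable3 : Summable fun n : ℕ => (n : ℝ) ^ (-(3 / 2) : ℝ) :=
  Real.summable_nat_rpow.mpr (by norm_num)

theorem S3_nonneg : 0 ≤ S3 := tsum_nonneg fun n => by positivity

theorem EP_approx (X : ℕ) (s : ℝ) : |EP X s - ∑ p ∈ (Finset.Icc 1 X).filter Nat.Prime,
    ((p : ℂ) ^ (-(1 / 2 + s * I)) + ((p : ℂ) ^ (-(1 / 2 + s * I))) ^ 2 / 2).re| ≤ 2 * S3 := by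
  unfold EP
  rw [← Finset.sum_neg_distrib, ← Finset.sum_sub_distrib]
  refine (Finset.abs_sum_le_sum_abs _ _).trans ?_
  have h1 : ∀ p ∈ (Finset.Icc 1 X).filter Nat.Prime,
      |-Real.log ‖1 - (p : ℂ) ^ (-(1 / 2 + s * I))‖ - ((p : ℂ) ^ (-(1 / 2 + s * I)) +
        ((p : ℂ) ^ (-(1 / 2 + s * I))) ^ 2 / 2).re| ≤ 2 * (p : ℝ) ^ (-(3 / 2) : ℝ) := by
    intro p hp
    have hp2 : 2 ≤ p := (Finset.mem_filter.mp hp).2.two_le
    refine (log_one_sub (norm_line_le hp2 s)).trans (le_of_eq ?_)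
    rw [norm_pow_line hp2, ← Real.rpow_natCast, ← Real.rpow_mul (by positivity)]
    norm_num
  refine (Finset.sum_le_sum h1).trans ?_
  rw [← Finset.mul_sum]
  exact mul_le_mul_of_nonneg_left (summable3.sum_le_tsum _ fun n _ => by positivity) (by norm_num)

/-! ### the coefficients -/

theorem norm_cpow_I_le (p : ℕ) (x : ℝ) : ‖(p : ℂ) ^ (-(x * I))‖ ≤ 1 := by
  rcases Nat.eq_zero_or_pos p with rfl | hp
  · rcases eq_or_ne (-(x * I : ℂ)) 0 with h | h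
    · rw [h]; simp
    · rw [Nat.cast_zero, Complex.zero_cpow h]; simp
  · rw [Complex.norm_natCast_cpow_of_pos hp]
    simp

theorem norm_ap_le {n : ℕ} (k α : Fin n → ℝ) {A : ℝ} (h : ∑ j, |k j| ≤ A) (p : ℕ) :
    ‖ap k α p‖ ≤ A := by
  unfold ap
  refine (norm_sum_le _ _).trans (le_trans (Finset.sum_le_sum fun j _ => ?_) h)
  rw [norm_mul, Complex.norm_real, Real.norm_eq_abs]
  exact mul_le_of_le_one_right (abs_nonneg _) (norm_cpow_I_le p (α j))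

theorem PA_re {n : ℕ} (k α : Fin n → ℝ) (X : ℕ) (t : ℝ) :
    (PA X (ap k α) (ap k fun j => 2 * α j) t).re = ∑ j, k j *
      ∑ p ∈ (Finset.Icc 1 X).filter Nat.Prime,
        ((p : ℂ) ^ (-(1 / 2 + (t + α j : ℝ) * I)) +
          ((p : ℂ) ^ (-(1 / 2 + (t + α j : ℝ) * I))) ^ 2 / 2).re := by
  unfold PA
  rw [Complex.re_sum]
  simp_rw [Finset.mul_sum]
  rw [Finset.sum_comm]
  refine Finset.sum_congr rfl fun p hp => ?_
  have hp0 : (p : ℂ) ≠ 0 := by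
    have := (Finset.mem_filter.mp hp).2.pos
    exact_mod_cast this.ne'
  unfold ap
  have h1 : ∀ j, (k j : ℂ) * ((p : ℂ) ^ (-(1 / 2 + (t + α j : ℝ) * I)) +
      ((p : ℂ) ^ (-(1 / 2 + (t + α j : ℝ) * I))) ^ 2 / 2) =
      (k j : ℂ) * (p : ℂ) ^ (-(α j * I)) * (p : ℂ) ^ (-(1 / 2 + t * I)) +
      (k j : ℂ) * (p : ℂ) ^ (-((2 * α j : ℝ) * I)) / 2 * (p : ℂ) ^ (-(1 + 2 * t * I)) := by
    intro j
    have e1 : (p : ℂ) ^ (-(1 / 2 + (t + α j : ℝ) * I)) =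
        (p : ℂ) ^ (-(α j * I)) * (p : ℂ) ^ (-(1 / 2 + t * I)) := by
      rw [← Complex.cpow_add _ _ hp0]
      congr 1
      push_cast
      ring
    have e2 : ((p : ℂ) ^ (-(1 / 2 + (t + α j : ℝ) * I))) ^ 2 =
        (p : ℂ) ^ (-((2 * α j : ℝ) * I)) * (p : ℂ) ^ (-(1 + 2 * t * I)) := by
      rw [← Complex.cpow_nat_mul, ← Complex.cpow_add _ _ hp0]
      congr 1
      push_cast
      ring
    rw [e2, e1]
    ring
  have h2 : (∑ j, (k j : ℂ) * (p : ℂ) ^ (-(α j * I))) * (p : ℂ) ^ (-(1 / 2 + t * I)) +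
      (∑ j, (k j : ℂ) * (p : ℂ) ^ (-((2 * α j : ℝ) * I))) / 2 * (p : ℂ) ^ (-(1 + 2 * t * I)) =
      ∑ j, (k j : ℂ) * ((p : ℂ) ^ (-(1 / 2 + (t + α j : ℝ) * I)) +
      ((p : ℂ) ^ (-(1 / 2 + (t + α j : ℝ) * I))) ^ 2 / 2) := by
    rw [Finset.sum_congr rfl fun j _ => h1 j, Finset.sum_add_distrib, Finset.sum_mul,
      Finset.sum_div, Finset.sum_mul]
  rw [h2, Complex.re_sum]
  refine Finset.sum_congr rfl fun j _ => ?_
  rw [Complex.re_ofReal_mul]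

theorem EP_PA {n : ℕ} (k α : Fin n → ℝ) {A : ℝ} (h : ∑ j, |k j| ≤ A) (X : ℕ) (t : ℝ) :
    |∑ j, k j * EP X (t + α j) - (PA X (ap k α) (ap k fun j => 2 * α j) t).re| ≤ A * (2 * S3) := by
  rw [PA_re, ← Finset.sum_sub_distrib]
  refine (Finset.abs_sum_le_sum_abs _ _).trans ?_
  have h1 : ∀ j ∈ (Finset.univ : Finset (Fin n)), |k j * EP X (t + α j) - k j *
      ∑ p ∈ (Finset.Icc 1 X).filter Nat.Prime,
        ((p : ℂ) ^ (-(1 / 2 + (t + α j : ℝ) * I)) +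
          ((p : ℂ) ^ (-(1 / 2 + (t + α j : ℝ) * I))) ^ 2 / 2).re| ≤ |k j| * (2 * S3) := by
    intro j _
    rw [← mul_sub, abs_mul]
    exact mul_le_mul_of_nonneg_left (EP_approx X (t + α j)) (abs_nonneg _)
  refine (Finset.sum_le_sum h1).trans ?_
  rw [← Finset.sum_mul]
  exact mul_le_mul_of_nonneg_right h (by have := S3_nonneg; linarith)

/-! ### convolutions -/

theorem cv_supp {N M : ℕ} {b c : ℕ → ℂ} (hb : ∀ n, b n ≠ 0 → 1 ≤ n ∧ n ≤ N)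
    (hc : ∀ n, c n ≠ 0 → 1 ≤ n ∧ n ≤ M) : ∀ n, cv b c n ≠ 0 → 1 ≤ n ∧ n ≤ N * M := by
  intro n hn
  unfold cv at hn
  obtain ⟨p, hp, hpn⟩ := Finset.exists_ne_zero_of_sum_ne_zero hn
  rw [Nat.mem_divisorsAntidiagonal] at hp
  have h1 := hb p.1 (left_ne_zero_of_mul hpn)
  have h2 := hc p.2 (right_ne_zero_of_mul hpn)
  rw [← hp.1]
  exact ⟨Nat.mul_pos h1.1 h2.1, Nat.mul_le_mul h1.2 h2.2⟩

theorem supp_zero {N : ℕ} {b : ℕ → ℂ} (hb : ∀ n, b n ≠ 0 → 1 ≤ n ∧ n ≤ N) : ∀ n, N < n → b n = 0 := by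
  intro n hn
  by_contra h
  have := (hb n h).2
  omega

theorem N2_nonneg (N : ℕ) (b : ℕ → ℂ) : 0 ≤ N2 N b :=
  Finset.sum_nonneg fun n _ => by positivity

/-- three factors `q` -/
theorem dp_cube (hD : S_DPM) {M₀ M : ℕ} {q f : ℕ → ℂ} (hq : ∀ n, q n ≠ 0 → 1 ≤ n ∧ n ≤ M₀)
    (hf : ∀ n, f n ≠ 0 → 1 ≤ n ∧ n ≤ M) (t : ℝ) :
    ‖dp M₀ q t‖ ^ 6 * ‖dp M f t‖ ^ 2 = ‖dp (M₀ ^ 3 * M) (cv q (cv q (cv q f))) t‖ ^ 2 := by
  have s1 := cv_supp hq hf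
  have s2 := cv_supp hq s1
  have e1 := hD.1 M₀ M q f t (supp_zero hq) (supp_zero hf)
  have e2 := hD.1 M₀ (M₀ * M) q (cv q f) t (supp_zero hq) (supp_zero s1)
  have e3 := hD.1 M₀ (M₀ * (M₀ * M)) q (cv q (cv q f)) t (supp_zero hq) (supp_zero s2)
  have e4 : M₀ ^ 3 * M = M₀ * (M₀ * (M₀ * M)) := by ring
  rw [e4, ← e3, ← e2, ← e1, norm_mul, norm_mul, norm_mul]
  ring

theorem exp_tangent {h g K : ℝ} (hg : -g ≤ h) : Real.exp (-K) * (1 + K - g) ≤ Real.exp h := by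
  have h1 : 1 + K - g ≤ Real.exp (K - g) := by
    have := Real.add_one_le_exp (K - g)
    linarith
  calc Real.exp (-K) * (1 + K - g) ≤ Real.exp (-K) * Real.exp (K - g) :=
        mul_le_mul_of_nonneg_left h1 (Real.exp_pos _).le
    _ = Real.exp (-g) := by rw [← Real.exp_add]; congr 1; ring
    _ ≤ Real.exp h := Real.exp_le_exp.mpr hg

end Pool.Agent.Q98.UM
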