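import Pool.Agent.Q98.UM.Lem2
import Pool.Agent.Erdos456.Mertens

/-! Project UM5 (helper97), job EXT (helper98). -/

set_option autoImplicit false

namespace Pool.Agent.Q98.UM

open Filter Topology MeasureTheory Complex
open Pool.Agent.Q97.UM

/-- the prime sum -/
theorem dp_prc (X : ℕ) (t : ℝ) : dp X (prc X) t =
    ∑ p ∈ (Finset.Icc 1 X).filter Nat.Prime, (p : ℂ) ^ (-(1 / 2 + t * I)) := by
  unfold dp prc
  rw [Finset.sum_filter]
  refine Finset.sum_congr rfl fun n hn => ?_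
  have h1 := (Finset.mem_Icc.mp hn).2
  by_cases hp : n.Prime
  · rw [if_pos ⟨hp, h1⟩, if_pos hp, one_mul]
  · rw [if_neg (fun h => hp h.1), if_neg hp, zero_mul]

theorem EP_prc {C₃ : ℝ} (hC : ∀ N : ℕ, 3 ≤ N →
    |∑ p ∈ (Finset.Icc 1 N).filter Nat.Prime, (1 : ℝ) / p - Real.log (Real.log N)| ≤ C₃)
    {X : ℕ} (hX : 3 ≤ X) (t : ℝ) : |EP X t - (dp X (prc X) t).re| ≤
      2 * S3 + (Real.log (Real.log X) + C₃) / 2 := by
  have h1 := abs_le.mp (EP_approx X t)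
  have h2 : ∑ p ∈ (Finset.Icc 1 X).filter Nat.Prime,
      ((p : ℂ) ^ (-(1 / 2 + t * I)) + ((p : ℂ) ^ (-(1 / 2 + t * I))) ^ 2 / 2).re =
      (dp X (prc X) t).re + ∑ p ∈ (Finset.Icc 1 X).filter Nat.Prime,
        (((p : ℂ) ^ (-(1 / 2 + t * I))) ^ 2 / 2).re := by
    rw [dp_prc, Complex.re_sum, ← Finset.sum_add_distrib]
    exact Finset.sum_congr rfl fun p _ => Complex.add_re _ _
  have h3 : |∑ p ∈ (Finset.Icc 1 X).filter Nat.Prime,
      (((p : ℂ) ^ (-(1 / 2 + t * I))) ^ 2 / 2).re| ≤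
      (∑ p ∈ (Finset.Icc 1 X).filter Nat.Prime, (1 : ℝ) / p) / 2 := by
    rw [Finset.sum_div]
    refine (Finset.abs_sum_le_sum_abs _ _).trans (Finset.sum_le_sum fun p hp => ?_)
    have hp2 : 2 ≤ p := (Finset.mem_filter.mp hp).2.two_le
    refine (abs_re_le_norm _).trans (le_of_eq ?_)
    rw [norm_div, norm_pow, norm_pow_line hp2, ← Real.rpow_natCast, ← Real.rpow_mul (by positivity)]
    norm_num
    exact Real.rpow_neg_one _
  have h4 := (abs_le.mp (hC X hX)).2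
  have h5 := abs_le.mp h3
  rw [h2] at h1
  rw [abs_le]
  constructor <;> linarith [h1.1, h1.2, h5.1, h5.2]

theorem card_lower {ZZ : Finset ℂ} {u : ℂ → ℝ} {B S : ℝ} (hB : 0 < B) (hu : ∀ s, u s ≤ B)
    (h : S ≤ ∑ s ∈ ZZ, u s) : S / B ≤ (ZZ.card : ℝ) := by
  rw [div_le_iff₀ hB]
  refine h.trans ((Finset.sum_le_sum fun s _ => hu s).trans (le_of_eq ?_))
  rw [Finset.sum_const, nsmul_eq_mul]

/-- growth facts -/
theorem growth (δ c₀ C : ℝ) (hδ : 0 < δ) (hc₀ : 0 < c₀) : ∀ᶠ T : ℝ in atTop,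
    40 ≤ Real.log T ∧ C ≤ Real.log (Real.log T) ∧ 1 ≤ Real.log (Real.log T) ∧
    Real.log T ^ 4 + 1 ≤ T ^ δ ∧
    3 * Real.log (Real.log T) ≤ c₀ / 2 * Real.sqrt (Real.log T / Real.log (Real.log T)) ∧ 4 ≤ T ^ δ := by
  have h1 := Real.tendsto_log_atTop
  have h2 : Tendsto (fun T : ℝ => Real.log (Real.log T)) atTop atTop := h1.comp h1
  have h3 : ∀ᶠ T : ℝ in atTop, ‖Real.log T ^ (4 : ℝ)‖ ≤ 1 / 2 * ‖T ^ δ‖ :=
    (isLittleO_log_rpow_rpow_atTop (s := δ) 4 hδ).def (by norm_num)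
  have h4 : ∀ᶠ T : ℝ in atTop, 4 ≤ T ^ δ := (tendsto_rpow_atTop hδ).eventually_ge_atTop 4
  have h5 : ∀ᶠ x : ℝ in atTop, ‖Real.log x ^ 3‖ ≤ c₀ ^ 2 / 36 * ‖id x‖ :=
    (Real.isLittleO_pow_log_id_atTop (n := 3)).def (by positivity)
  have h6 := h1.eventually h5
  filter_upwards [h1.eventually_ge_atTop 40, h2.eventually_ge_atTop C, h2.eventually_ge_atTop 1, h3, h4,
    h6, eventually_gt_atTop 0] with T a1 a2 a3 a4 a5 a6 a7
  refine ⟨a1, a2, a3, ?_, ?_, a5⟩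
  · rw [Real.norm_eq_abs, Real.norm_eq_abs, abs_of_nonneg (by positivity),
      abs_of_nonneg (by positivity)] at a4
    have e1 : Real.log T ^ (4 : ℝ) = Real.log T ^ 4 := by
      rw [← Real.rpow_natCast]
      norm_num
    rw [e1] at a4
    linarith
  · simp only [Real.norm_eq_abs, id_eq] at a6
    rw [abs_of_nonneg (by positivity), abs_of_nonneg (by linarith)] at a6
    set l := Real.log (Real.log T) with hl
    have hl0 : 0 < l := by linarith
    have e2 : 6 / c₀ * l ≤ Real.sqrt (Real.log T / l) := by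
      apply Real.le_sqrt_of_sq_le
      rw [le_div_iff₀ hl0]
      have e3 : (6 / c₀ * l) ^ 2 * l = 36 / c₀ ^ 2 * l ^ 3 := by ring
      rw [e3]
      have e4 : 36 / c₀ ^ 2 * l ^ 3 ≤ 36 / c₀ ^ 2 * (c₀ ^ 2 / 36 * Real.log T) :=
        mul_le_mul_of_nonneg_left a6 (by positivity)
      refine e4.trans (le_of_eq ?_)
      field_simp
    have e5 := mul_le_mul_of_nonneg_left e2 (by positivity : 0 ≤ c₀ / 2)
    refine le_trans (le_of_eq ?_) e5
    field_simp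
    ring

open Classical in
theorem ext_core (hSI : S_SAMPI) (hS : S_SAMP) (hTD : S_THD) (hR : S_RES) (hD : S_DPM) :
    ∃ d : ℝ, 0 < d ∧ ∀ ε : ℝ, 0 < ε → ∃ c₀ : ℝ, 0 < c₀ ∧ ∀ᶠ T : ℝ in atTop, ∀ σ : ℝ, σ = 1 ∨ σ = -1 →
      ∃ a : ℝ, c₀ * Real.sqrt (Real.log T / Real.log (Real.log T)) ≤ a ∧
      3 * Real.log (Real.log T) ≤ c₀ / 2 * Real.sqrt (Real.log T / Real.log (Real.log T)) ∧
      T ^ (1 - ε) ≤ (((ZI d T).filter (fun s =>
        |Real.log ‖deriv riemannZeta s‖ - σ * a| ≤ 3 * Real.log (Real.log T))).card : ℝ) := by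
  obtain ⟨d, θ₁, hd, -, hθ₁, -, hSI⟩ := hSI (1 / 10) (by norm_num)
  obtain ⟨θ₂, hθ₂, -, hS⟩ := hS 1 one_pos
  obtain ⟨θ₃, δ₀, hθ₃, hδ₀, hTD⟩ := hTD 1
  obtain ⟨C₃, hC₃⟩ := Pool.Agent.Erdos456.Mert.mertens_inv
  refine ⟨d, hd, fun ε hε => ?_⟩
  set δ : ℝ := min δ₀ (min (θ₂ / 2) (1 / 40)) with hδd
  have hδ : 0 < δ := by positivity
  have hδ1 : δ ≤ δ₀ := min_le_left _ _
  have hδ2 : δ ≤ θ₂ / 2 := (min_le_right _ _).trans (min_le_left _ _)
  have hδ3 : δ ≤ 1 / 40 := (min_le_right _ _).trans (min_le_right _ _)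
  set θ : ℝ := min (min ε 1) (min θ₁ (min (θ₂ / 2) θ₃)) with hθd
  have hθ : 0 < θ := by positivity
  have hθε : θ ≤ ε := (min_le_left _ _).trans (min_le_left _ _)
  have hθ1 : θ ≤ 1 := (min_le_left _ _).trans (min_le_right _ _)
  have hθθ₁ : θ ≤ θ₁ := (min_le_right _ _).trans (min_le_left _ _)
  have hθθ₂ : θ ≤ θ₂ / 2 := (min_le_right _ _).trans ((min_le_right _ _).trans (min_le_left _ _))
  have hθθ₃ : θ ≤ θ₃ := (min_le_right _ _).trans ((min_le_right _ _).trans (min_le_right _ _))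
  obtain ⟨C₁, hC₁, hTD⟩ := hTD δ d hδ hδ1 hd
  obtain ⟨c₀, C₂, hc₀, hC₂, hR⟩ := hR θ hθ hθ1
  set K : ℝ := 40 * (C₁ + 2 * C₂) + 1 with hK
  have hK0 : 0 < K := by positivity
  have hS3 := S3_nonneg
  set C' : ℝ := 3 / 2 * K + 2 * S3 + |C₃| / 2 with hC'
  refine ⟨c₀, hc₀, ?_⟩
  filter_upwards [hSI, hS, hTD, hR, growth δ c₀ C' hδ hc₀, eventually_gt_atTop 1]
    with T hSI hS hTD hR hgr hT1 σ hσ
  obtain ⟨g1, g2, g3, g4, g5, g6⟩ := hgr
  obtain ⟨N, r, a, hN, hrs, hN2, ha, hRX⟩ := hR σ hσ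
  have hT0 : 0 < T := by linarith
  refine ⟨a, ha, g5, ?_⟩
  set X : ℕ := ⌊T ^ δ⌋₊ with hX
  have hXle : (X : ℝ) ≤ T ^ δ := Nat.floor_le (by positivity)
  have hXT : (X : ℝ) ≤ T := hXle.trans (by
    calc T ^ δ ≤ T ^ (1 : ℝ) := Real.rpow_le_rpow_of_exponent_le hT1.le (by linarith)
      _ = T := Real.rpow_one T)
  have hXge : Real.log T ^ 4 ≤ X := by
    have := Nat.lt_floor_add_one (T ^ δ)
    rw [← hX] at this
    linarith
  have hX3 : 3 ≤ X := by
    have h1 : (3 : ℝ) < X := by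
      have := Nat.lt_floor_add_one (T ^ δ)
      rw [← hX] at this
      linarith
    exact_mod_cast h1.le
  have hRX := hRX X hXge hXT
  set l := Real.log (Real.log T) with hl
  have hl0 : 0 < l := by linarith
  set n2 := N2 N r with hn2
  have hn20 : 0 < n2 := by linarith
  set Λ : ℝ := Real.log T * (T * n2) with hΛ
  have hL0 : 0 < Real.log T := by linarith
  have hΛ0 : 0 < Λ := by positivity
  set F : ℝ → ℂ := dp N r with hF
  have hlow : 1 / 20 * Λ ≤ ∑ s ∈ ZI d T, ‖F s.im‖ ^ 2 :=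
    samp_lower hT0.le hL0.le (hSI N (hN.trans (Real.rpow_le_rpow_of_exponent_le hT1.le hθθ₁)) r)
  have hDs := (hTD N (hN.trans (Real.rpow_le_rpow_of_exponent_le hT1.le hθθ₃)) r).1
  simp only [pow_one] at hDs
  rw [mul_assoc C₁] at hDs
  set Ds : ℂ → ℝ := fun s =>
    |Real.log ‖deriv riemannZeta s‖ - l - EP X s.im| with hDsd
  have hDs' : ∑ s ∈ ZI d T, Ds s * ‖F s.im‖ ^ 2 ≤ C₁ * Λ := hDs
  -- the resonator
  set G : ℕ → ℂ := fun n => cv (prc X) r n - σ * a * r n with hG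
  have hprs : ∀ n, prc X n ≠ 0 → 1 ≤ n ∧ n ≤ X := by
    intro n hn
    unfold prc at hn
    by_cases h : n.Prime ∧ n ≤ X
    · exact ⟨h.1.one_lt.le, h.2⟩
    · rw [if_neg h] at hn
      exact absurd rfl hn
  have hXN : ((X * N : ℕ) : ℝ) ≤ T ^ θ₂ := by
    push_cast
    calc (X : ℝ) * N ≤ T ^ δ * T ^ θ := mul_le_mul hXle hN (Nat.cast_nonneg _) (by positivity)
      _ = T ^ (δ + θ) := (Real.rpow_add hT0 _ _).symm
      _ ≤ T ^ θ₂ := Real.rpow_le_rpow_of_exponent_le hT1.le (by linarith)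
  have hNX : N ≤ X * N := Nat.le_mul_of_pos_left N (by omega)
  have hGeq : ∀ t, dp (X * N) G t = (dp X (prc X) t - σ * a) * F t := by
    intro t
    have e1 := hD.1 X N (prc X) r t (supp_zero hprs) (supp_zero hrs)
    have e2 : dp (X * N) r t = dp N r t := by
      unfold dp
      symm
      refine Finset.sum_subset (Finset.Icc_subset_Icc_right hNX) fun n _ hn => ?_
      by_cases h : r n = 0
      · rw [h, zero_mul]
      · exact absurd (Finset.mem_Icc.mpr (hrs n h)) hn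
    have e3 : dp (X * N) G t = dp (X * N) (cv (prc X) r) t - σ * a * dp (X * N) r t := by
      unfold dp
      rw [Finset.mul_sum, ← Finset.sum_sub_distrib]
      refine Finset.sum_congr rfl fun n _ => ?_
      simp only [hG]
      ring
    rw [e3, e2, ← e1, hF]
    ring
  have hGup : ∑ s ∈ ZI d T, ‖dp X (prc X) s.im - σ * a‖ ^ 2 * ‖F s.im‖ ^ 2 ≤ 2 * C₂ * l * Λ := by
    have e1 := samp_upper hT0.le hL0.le ((hS (X * N) hXN G).2.2) d
    have e2 : ∀ s ∈ ZI d T, ‖dp (X * N) G s.im‖ ^ 2 =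
        ‖dp X (prc X) s.im - σ * a‖ ^ 2 * ‖F s.im‖ ^ 2 := by
      intro s _
      rw [hGeq, norm_mul, mul_pow]
    rw [Finset.sum_congr rfl e2] at e1
    refine e1.trans ?_
    have e3 : 2 * (Real.log T * (T * N2 (X * N) G)) ≤ 2 * (Real.log T * (T * (C₂ * l * n2))) := by
      have h1 : T * N2 (X * N) G ≤ T * (C₂ * l * n2) := mul_le_mul_of_nonneg_left hRX hT0.le
      have h2 := mul_le_mul_of_nonneg_left h1 hL0.le
      linarith
    refine e3.trans (le_of_eq ?_)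
    rw [hΛ]
    ring
  -- good zeros
  set GG := (ZI d T).filter (fun s => Ds s ≤ K ∧ ‖dp X (prc X) s.im - σ * a‖ ^ 2 ≤ K * l) with hGG
  have hsplit : ∑ s ∈ ZI d T, ‖F s.im‖ ^ 2 ≤ ∑ s ∈ GG, ‖F s.im‖ ^ 2 +
      ∑ s ∈ ZI d T, (Ds s / K + ‖dp X (prc X) s.im - σ * a‖ ^ 2 / (K * l)) * ‖F s.im‖ ^ 2 := by
    have e1 := Finset.sum_filter_add_sum_filter_not (ZI d T)
      (fun s => Ds s ≤ K ∧ ‖dp X (prc X) s.im - σ * a‖ ^ 2 ≤ K * l) (fun s => ‖F s.im‖ ^ 2)
    rw [← e1]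
    refine add_le_add le_rfl ?_
    have e2 : ∑ s ∈ (ZI d T).filter (fun s => ¬ (Ds s ≤ K ∧ ‖dp X (prc X) s.im - σ * a‖ ^ 2 ≤ K * l)),
        ‖F s.im‖ ^ 2 ≤ ∑ s ∈ (ZI d T).filter
          (fun s => ¬ (Ds s ≤ K ∧ ‖dp X (prc X) s.im - σ * a‖ ^ 2 ≤ K * l)),
          (Ds s / K + ‖dp X (prc X) s.im - σ * a‖ ^ 2 / (K * l)) * ‖F s.im‖ ^ 2 := by
      refine Finset.sum_le_sum fun s hs => ?_
      have h1 := (Finset.mem_filter.mp hs).2
      have h2 : 1 ≤ Ds s / K + ‖dp X (prc X) s.im - σ * a‖ ^ 2 / (K * l) := by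
        have h3 : 0 ≤ Ds s / K := div_nonneg (abs_nonneg _) hK0.le
        have h4 : 0 ≤ ‖dp X (prc X) s.im - σ * a‖ ^ 2 / (K * l) := by positivity
        by_cases h5 : Ds s ≤ K
        · have h6 : K * l < ‖dp X (prc X) s.im - σ * a‖ ^ 2 := by
            by_contra h7
            exact h1 ⟨h5, not_lt.mp h7⟩
          have h8 : 1 ≤ ‖dp X (prc X) s.im - σ * a‖ ^ 2 / (K * l) := by
            rw [le_div_iff₀ (by positivity), one_mul]
            exact h6.le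
          linarith
        · have h8 : 1 ≤ Ds s / K := by
            rw [le_div_iff₀ hK0, one_mul]
            exact (not_le.mp h5).le
          linarith
      have h9 : 0 ≤ ‖F s.im‖ ^ 2 := by positivity
      nlinarith
    refine e2.trans (Finset.sum_le_sum_of_subset_of_nonneg (Finset.filter_subset _ _) fun s _ _ => ?_)
    have h3 : 0 ≤ Ds s / K := div_nonneg (abs_nonneg _) hK0.le
    positivity
  have hbad : ∑ s ∈ ZI d T, (Ds s / K + ‖dp X (prc X) s.im - σ * a‖ ^ 2 / (K * l)) * ‖F s.im‖ ^ 2 ≤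
      1 / 40 * Λ := by
    have e1 : ∀ s ∈ ZI d T, (Ds s / K + ‖dp X (prc X) s.im - σ * a‖ ^ 2 / (K * l)) * ‖F s.im‖ ^ 2 =
        (1 / K) * (Ds s * ‖F s.im‖ ^ 2) +
          (1 / (K * l)) * (‖dp X (prc X) s.im - σ * a‖ ^ 2 * ‖F s.im‖ ^ 2) := by
      intro s _
      ring
    rw [Finset.sum_congr rfl e1, Finset.sum_add_distrib, ← Finset.mul_sum, ← Finset.mul_sum]
    have e2 := mul_le_mul_of_nonneg_left hDs' (by positivity : 0 ≤ 1 / K)
    have e3 := mul_le_mul_of_nonneg_left hGup (by positivity : 0 ≤ 1 / (K * l))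
    have e4 : 1 / (K * l) * (2 * C₂ * l * Λ) = 1 / K * (2 * C₂ * Λ) := by
      field_simp
    have e5 : 1 / K * (C₁ * Λ) + 1 / K * (2 * C₂ * Λ) = (C₁ + 2 * C₂) / K * Λ := by ring
    have e6 : (C₁ + 2 * C₂) / K ≤ 1 / 40 := by
      rw [div_le_iff₀ hK0, hK]
      linarith
    have e7 := mul_le_mul_of_nonneg_right e6 hΛ0.le
    linarith
  have hgood : 1 / 40 * Λ ≤ ∑ s ∈ GG, ‖F s.im‖ ^ 2 := by linarith
  -- the number of the good zeros
  have hN0 : 0 < N := by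
    rcases Nat.eq_zero_or_pos N with h | h
    · exfalso
      have : N2 N r = 0 := by
        rw [h]
        unfold N2
        simp
      linarith
    · exact h
  have hN0' : (0 : ℝ) < N := by exact_mod_cast hN0
  have hcard : 1 / 40 * Λ / (N * n2) ≤ (GG.card : ℝ) :=
    card_lower (by positivity) (fun s => (hD.2.2 N r s.im).1) hgood
  have hTN : T ^ (1 - ε) ≤ 1 / 40 * Λ / (N * n2) := by
    have e1 : 1 / 40 * Λ / (N * n2) = Real.log T / 40 * (T / N) := by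
      rw [hΛ]
      field_simp
    rw [e1]
    have e2 : T ^ (1 - ε) ≤ T / N := by
      rw [le_div_iff₀ hN0']
      calc T ^ (1 - ε) * N ≤ T ^ (1 - ε) * T ^ θ := mul_le_mul_of_nonneg_left hN (by positivity)
        _ = T ^ (1 - ε + θ) := (Real.rpow_add hT0 _ _).symm
        _ ≤ T ^ (1 : ℝ) := Real.rpow_le_rpow_of_exponent_le hT1.le (by linarith)
        _ = T := Real.rpow_one T
    have e3 : 0 ≤ T / N := by positivity
    have e4 : 1 ≤ Real.log T / 40 := by linarith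
    nlinarith
  have hsub : GG ⊆ (ZI d T).filter (fun s =>
      |Real.log ‖deriv riemannZeta s‖ - σ * a| ≤ 3 * l) := by
    intro s hs
    rw [hGG, Finset.mem_filter] at hs
    obtain ⟨hs1, hs2, hs3⟩ := hs
    refine Finset.mem_filter.mpr ⟨hs1, ?_⟩
    have u1 := abs_le.mp (EP_prc hC₃ hX3 s.im)
    have u2 : Real.log (Real.log X) ≤ l := by
      refine Real.log_le_log ?_ (Real.log_le_log (by exact_mod_cast (by omega : 0 < X)) hXT)
      exact Real.log_pos (by exact_mod_cast (by omega : 1 < X))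
    have u3 := abs_le.mp hs2
    have u4 : ‖dp X (prc X) s.im - σ * a‖ ≤ (K + l) / 2 := by
      have h1 : ‖dp X (prc X) s.im - σ * a‖ ^ 2 ≤ ((K + l) / 2) ^ 2 := by
        nlinarith [sq_nonneg (K - l)]
      exact le_of_sq_le_sq h1 (by positivity)
    have u5 : |(dp X (prc X) s.im).re - σ * a| ≤ (K + l) / 2 := by
      have h1 : (dp X (prc X) s.im).re - σ * a = (dp X (prc X) s.im - σ * a).re := by
        rw [Complex.sub_re]
        congr 1
        have : ((σ : ℂ) * (a : ℂ)) = ((σ * a : ℝ) : ℂ) := by push_cast; ring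
        rw [this, Complex.ofReal_re]
      rw [h1]
      exact (abs_re_le_norm _).trans u4
    have u6 := abs_le.mp u5
    have u7 := le_abs_self C₃
    rw [abs_le]
    constructor <;> linarith [u1.1, u1.2, u3.1, u3.2, u6.1, u6.2]
  exact (hTN.trans hcard).trans (by exact_mod_cast Finset.card_le_card hsub)

theorem t_EXT : J_EXT := by
  intro hSI hS hTD hR hD
  obtain ⟨d, hd, h⟩ := ext_core hSI hS hTD hR hD
  refine ⟨d, hd, fun ε hε => ?_⟩
  obtain ⟨c₀, hc₀, h⟩ := h ε hε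
  refine ⟨c₀ / 2, by positivity, ?_⟩
  filter_upwards [h] with T h
  constructor
  · obtain ⟨a, ha, hl, hc⟩ := h 1 (Or.inl rfl)
    refine hc.trans (Nat.cast_le.mpr (Finset.card_le_card fun s hs => ?_))
    obtain ⟨h1, h2⟩ := Finset.mem_filter.mp hs
    refine Finset.mem_filter.mpr ⟨h1, ?_⟩
    obtain ⟨-, hre, hmz⟩ := mem_ZI h1
    have hder : 0 < ‖deriv riemannZeta s‖ := norm_pos_iff.mpr (deriv_ne hre hmz)
    rw [← Real.le_log_iff_exp_le hder]
    have h3 := (abs_le.mp h2).1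
    linarith
  · obtain ⟨a, ha, hl, hc⟩ := h (-1) (Or.inr rfl)
    refine hc.trans (Nat.cast_le.mpr (Finset.card_le_card fun s hs => ?_))
    obtain ⟨h1, h2⟩ := Finset.mem_filter.mp hs
    refine Finset.mem_filter.mpr ⟨h1, ?_⟩
    obtain ⟨-, hre, hmz⟩ := mem_ZI h1
    have hder : 0 < ‖deriv riemannZeta s‖ := norm_pos_iff.mpr (deriv_ne hre hmz)
    rw [← Real.log_le_iff_le_exp hder]
    have h3 := (abs_le.mp h2).2
    linarith

end Pool.Agent.Q98.UM
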