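import Pool.Agent.Q98.UM.Lem

/-! Project UM5 (helper97): auxiliary lemmas on the zeros for the jobs LBD, EXT (helper98). -/

set_option autoImplicit false

namespace Pool.Agent.Q98.UM

open Filter Topology MeasureTheory Complex
open Pool.Agent.Q97.UM

theorem deriv_ne {ρ : ℂ} (hre : ρ.re = 1 / 2) (h1 : mz ρ = 1) : deriv riemannZeta ρ ≠ 0 := by
  have hne1 : ρ ≠ 1 := by
    rintro rfl
    norm_num at hre
  have han : AnalyticAt ℂ riemannZeta ρ := by
    have hopen : IsOpen ({1}ᶜ : Set ℂ) := isOpen_compl_singleton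
    have hd : DifferentiableOn ℂ riemannZeta {1}ᶜ := fun s hs =>
      (differentiableAt_riemannZeta hs).differentiableWithinAt
    exact hd.analyticAt (hopen.mem_nhds hne1)
  unfold mz at h1
  have hord : analyticOrderAt riemannZeta ρ = 1 := by
    have h2 : analyticOrderAt riemannZeta ρ ≠ ⊤ := by
      intro h
      rw [analyticOrderNatAt, h] at h1
      simp at h1
    have h3 := Nat.cast_analyticOrderNatAt h2
    rw [h1] at h3
    rw [← h3]
    rfl
  obtain ⟨g, hg, hg0, hgE⟩ := (han.analyticOrderAt_eq_natCast (n := 1)).mp (by rw [hord]; rfl)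
  have h4 : HasDerivAt (fun z => (z - ρ) * g z) (g ρ) ρ := by
    have h5 : HasDerivAt (fun z => (z - ρ) * g z) (1 * g ρ + (ρ - ρ) * deriv g ρ) ρ :=
      ((hasDerivAt_id ρ).sub_const ρ).mul hg.differentiableAt.hasDerivAt
    rwa [sub_self, zero_mul, add_zero, one_mul] at h5
  have h6 : riemannZeta =ᶠ[𝓝 ρ] fun z => (z - ρ) * g z := by
    filter_upwards [hgE] with z hz
    rw [hz, pow_one, smul_eq_mul]
  rw [h6.deriv_eq, h4.deriv]
  exact hg0

theorem mem_ZI {d T : ℝ} {s : ℂ} (h : s ∈ ZI d T) : s ∈ H370.Zf riemannZeta T (2 * T) ∧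
    s.re = 1 / 2 ∧ mz s = 1 := by
  unfold ZI at h
  rw [Finset.mem_filter] at h
  exact ⟨h.1, h.2.1, h.2.2.1⟩

/-- sums over the isolated zeros are at most the weighted sums over all zeros -/
theorem sum_ZI_le (d T : ℝ) (u : ℂ → ℝ) (hu : ∀ s, 0 ≤ u s) :
    ∑ s ∈ ZI d T, u s ≤ ∑ s ∈ H370.Zf riemannZeta T (2 * T), (mz s : ℝ) * u s := by
  calc ∑ s ∈ ZI d T, u s = ∑ s ∈ ZI d T, (mz s : ℝ) * u s := by
        refine Finset.sum_congr rfl fun s hs => ?_
        rw [(mem_ZI hs).2.2]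
        simp
    _ ≤ _ := by
        refine Finset.sum_le_sum_of_subset_of_nonneg (fun s hs => (mem_ZI hs).1) fun s _ _ => ?_
        exact mul_nonneg (Nat.cast_nonneg _) (hu s)

/-- upper bound for the mean square over the isolated zeros -/
theorem samp_upper {T : ℝ} (hT : 0 ≤ T) (hL : 0 ≤ Real.log T) {N : ℕ} {b : ℕ → ℂ}
    (h : |(∑ s ∈ H370.Zf riemannZeta T (2 * T), (mz s : ℝ) * ‖dp N b s.im‖ ^ 2) -
      Real.log T / (2 * Real.pi) * (T * N2 N b)| ≤ 1 * Real.log T * (T * N2 N b)) (d : ℝ) :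
    ∑ s ∈ ZI d T, ‖dp N b s.im‖ ^ 2 ≤ 2 * (Real.log T * (T * N2 N b)) := by
  refine (sum_ZI_le d T (fun s => ‖dp N b s.im‖ ^ 2) fun s => by positivity).trans ?_
  have h1 := (abs_le.mp h).2
  have h2 : 0 ≤ Real.log T * (T * N2 N b) := mul_nonneg hL (mul_nonneg hT (N2_nonneg _ _))
  have h3 : Real.log T / (2 * Real.pi) * (T * N2 N b) ≤ Real.log T * (T * N2 N b) := by
    have h4 : Real.log T / (2 * Real.pi) ≤ Real.log T := by
      refine div_le_self hL ?_
      have := Real.pi_gt_three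
      linarith
    exact mul_le_mul_of_nonneg_right h4 (mul_nonneg hT (N2_nonneg _ _))
  linarith

/-- lower bound for the mean square over the isolated zeros -/
theorem samp_lower {T : ℝ} (hT : 0 ≤ T) (hL : 0 ≤ Real.log T) {N : ℕ} {b : ℕ → ℂ} {d : ℝ}
    (h : (2 - H370.cMTinv - 1 / 10) * (Real.log T / (2 * Real.pi)) * (T * N2 N b) ≤
      ∑ s ∈ ZI d T, ‖dp N b s.im‖ ^ 2) :
    1 / 20 * (Real.log T * (T * N2 N b)) ≤ ∑ s ∈ ZI d T, ‖dp N b s.im‖ ^ 2 := by
  refine le_trans ?_ h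
  have h0 : 0 ≤ Real.log T * (T * N2 N b) := mul_nonneg hL (mul_nonneg hT (N2_nonneg _ _))
  have h1 : 2 / 5 ≤ 2 - H370.cMTinv - 1 / 10 := by
    have := H370.cMTinv_lt
    linarith
  have h2 : (2 - H370.cMTinv - 1 / 10) * (Real.log T / (2 * Real.pi)) * (T * N2 N b) =
      (2 - H370.cMTinv - 1 / 10) / (2 * Real.pi) * (Real.log T * (T * N2 N b)) := by ring
  rw [h2]
  refine mul_le_mul_of_nonneg_right ?_ h0
  rw [le_div_iff₀ (by positivity)]
  have := Real.pi_lt_d2
  linarith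

/-- `log ζ(1 + 1/log T) ≥ log log T - 1` -/
theorem zeta_near_one : ∀ᶠ T : ℝ in atTop,
    Real.log (Real.log T) - 1 ≤ Real.log ‖riemannZeta (1 + 1 / Real.log T + (0 : ℝ) * I)‖ := by
  have h1 : Tendsto (fun T : ℝ => (1 + 1 / Real.log T + (0 : ℝ) * I : ℂ)) atTop (𝓝[≠] 1) := by
    rw [tendsto_nhdsWithin_iff]
    constructor
    · have h2 : Tendsto (fun T : ℝ => ((1 / Real.log T : ℝ) : ℂ)) atTop (𝓝 ((0 : ℝ) : ℂ)) := by
        have h3 : Tendsto (fun T : ℝ => 1 / Real.log T) atTop (𝓝 0) :=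
          tendsto_const_nhds.div_atTop Real.tendsto_log_atTop
        exact (Complex.continuous_ofReal.tendsto 0).comp h3
      have h4 := h2.const_add 1
      simp only [ofReal_zero, add_zero] at h4
      refine h4.congr fun T => ?_
      push_cast
      ring
    · filter_upwards [eventually_gt_atTop 1] with T hT
      have hL : Real.log T ≠ 0 := (Real.log_pos hT).ne'
      rw [Set.mem_compl_iff, Set.mem_singleton_iff]
      intro h
      have h5 := congrArg Complex.re h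
      simp at h5
      rcases h5 with h5 | h5 | h5
      · linarith
      · linarith
      · linarith
  have h6 := (riemannZeta_residue_one.comp h1).norm
  rw [norm_one] at h6
  have h7 : ∀ᶠ T : ℝ in atTop, Real.exp (-1) < ‖((1 + 1 / Real.log T + (0 : ℝ) * I : ℂ) - 1) *
      riemannZeta (1 + 1 / Real.log T + (0 : ℝ) * I)‖ := by
    refine h6.eventually_const_lt ?_
    exact Real.exp_lt_one_iff.mpr (by norm_num)
  filter_upwards [h7, eventually_gt_atTop (Real.exp 1)] with T h8 hT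
  have hT1 : 1 < T := lt_trans (Real.one_lt_exp_iff.mpr one_pos) hT
  have hL : 0 < Real.log T := Real.log_pos hT1
  have h9 : ((1 + 1 / Real.log T + (0 : ℝ) * I : ℂ) - 1) = ((1 / Real.log T : ℝ) : ℂ) := by
    push_cast
    ring
  rw [h9, norm_mul, Complex.norm_real, Real.norm_eq_abs, abs_of_pos (by positivity)] at h8
  have h10 : Real.exp (-1) * Real.log T < ‖riemannZeta (1 + 1 / Real.log T + (0 : ℝ) * I)‖ := by
    have h11 : 1 / Real.log T * ‖riemannZeta (1 + 1 / Real.log T + (0 : ℝ) * I)‖ * Real.log T =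
        ‖riemannZeta (1 + 1 / Real.log T + (0 : ℝ) * I)‖ := by
      field_simp
    rw [← h11]
    exact mul_lt_mul_of_pos_right h8 hL
  have h12 := Real.log_le_log (mul_pos (Real.exp_pos _) hL) h10.le
  rw [Real.log_mul (Real.exp_pos _).ne' hL.ne', Real.log_exp] at h12
  linarith

/-- lower bound for the sum over the primes from `S_MZ` -/
theorem prime_lower (hMZ : S_MZ) {δ : ℝ} (hδ : 0 < δ) (hδ1 : δ ≤ 1) : ∃ C : ℝ, 0 ≤ C ∧
    ∀ᶠ T : ℝ in atTop, Real.log (Real.log T) - C ≤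
      ∑ p ∈ (Finset.Icc 1 ⌊T ^ δ⌋₊).filter Nat.Prime, (1 : ℝ) / p := by
  obtain ⟨C, hC⟩ := hMZ δ hδ hδ1
  refine ⟨max C 0 + 1, by positivity, ?_⟩
  filter_upwards [hC, zeta_near_one] with T h1 h2
  have h3 := (abs_le.mp (h1 0)).1
  simp only [zero_mul, Real.cos_zero] at h3
  have h4 : (riemannZeta (1 + 1 / Real.log T + (0 : ℝ) * I)) =
      riemannZeta (1 + 1 / Real.log T + ((0 : ℝ) : ℂ) * I) := rfl
  simp only [ofReal_zero, zero_mul, add_zero] at h2 h3
  have := le_max_left C 0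
  linarith

end Pool.Agent.Q98.UM
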